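import Pool.Agent.SSF.Final

/-!
# Algebraic equivalence of codimension-2 cycles over finite fields

There is a smooth projective geometrically connected variety `X` over a finite field `F` (here
`F = F_17`, `dim X = 4`) and a cycle `z` of codimension two on `X` which is algebraically (even
rationally) equivalent to zero over the algebraic closure of `F` but is not algebraically
equivalent to zero over `F`.

`X` is a form, twisted by the Frobenius, of a `(Z/2)^4`-cover of the product of four projective
lines, a tower of four smooth genus-one fibrations, and `z` is the difference of two surfaces.
For every field `K` over `F` the determinants of multiplication by functions on the zero-cycles
cut out by sections of line bundles define a functional on the surfaces on `X_K` with values in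
`K^* / K^{*2}`. It is additive and compatible with rational equivalence and with specialization,
its values are `1` or the class of the non-square `3` whenever `3` is not a square in `K`, so it
is constant in families, and its value at `z` is the class of `3`.
-/

namespace Pool.Agent.Results.MP_5928ba_ag.CodimTwo

theorem result : Pool.Agent.SSF.Answer := Pool.Agent.SSF.main

end Pool.Agent.Results.MP_5928ba_ag.CodimTwo
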