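import Pool.Agent.helper29.SS.Final

/-!
# Algebraic equivalence of codimension-2 cycles over finite fields

For every finite field `F` of odd characteristic and every `d ≥ 6` there is a smooth projective
geometrically connected variety `X` over `F`, of dimension `d`, with
`CH²(X)_{F-alg} ≠ CH²(X)_alg`. The published theorems on Chow rings and etale cohomology which are
used are assumed: they are the fields of `PublishedTheorems`.

The variety is `X = Y/G` with `G = (Z/2)²` acting on a projective space over `F` by two commuting
matrices `A`, `B` with `B² = 1` and `A² = u`, where `u` is not a square in `F`. The line bundle `M`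
on `X̄` attached to `O(1)` and the lift `(s A, B)`, `s² u = 1`, is not invariant under the
Frobenius `φ`: `φ M = M + L_x`. The class `z = D · L_y`, where `D` is the line bundle on `X` with
`D = 2 M` on `X̄`, vanishes on `X̄`. Its cycle class is the image in `H⁴(X)` of the class of
`x y²` in `H³(X̄)/(φ - 1)`, which is not zero, since `φ m = m + x²`. The classes
`Z_{t₁} - Z_{t₀}` have cycle class zero: a Kunneth component in `H³(X̄) ⊗ H¹(C̄)` of the class of
`Z` would be killed by `Sq³`, but the squaring `Sq³ : H³(X̄) → H⁶(X̄)` is injective.
-/

namespace Pool.Agent.Results.MP_5928ba_ag.ScaviaSuzuki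

open Pool.Agent.helper29.SS

universe w

theorem result (F : Type) [Field F] [Fintype F] (h2 : (2 : F) ≠ 0) (W : Theory.{w} F)
    (h : W.PublishedTheorems) (d : ℕ) (hd : 6 ≤ d) :
    ∃ X : VarF F, IsNice X.1 ∧ HasDim X.1 d ∧ ∃ z ∈ W.Alg X, z ∉ W.FAlg X :=
  Theory.exists_variety h2 h d hd

end Pool.Agent.Results.MP_5928ba_ag.ScaviaSuzuki
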